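import Pool.Agent.helper12.FI4.SpecXL

/-! Row fx:XL: the trace `LL` is the dimension of the span of the restrictions to the `p`-regular elements. -/

set_option autoImplicit false

namespace Pool.Agent.FI4

open Pool.Agent.helper58.DC Pool.Agent.DI Pool.Agent.GR Pool.Agent.OB Pool.Agent.DR Pool.Agent.FI Pool.Agent.FI3

theorem XL_rank {n : Type} [Fintype n] [DecidableEq n] (A : Matrix n n ℂ) (hA : A * A = A) :
    ∑ i, A i i = (A.rank : ℂ) := by
  have h1 : IsIdempotentElem (Matrix.toLin' A) := by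
    change Matrix.toLin' A * Matrix.toLin' A = Matrix.toLin' A
    rw [Module.End.mul_eq_comp, ← Matrix.toLin'_mul, hA]
  have h2 : LinearMap.IsProj (LinearMap.range (Matrix.toLin' A)) (Matrix.toLin' A) := by
    refine ⟨fun x => LinearMap.mem_range_self _ x, ?_⟩
    rintro x ⟨y, rfl⟩
    exact LinearMap.congr_fun h1 y
  have h3 := h2.trace
  have h4 : A.rank = Module.finrank ℂ (LinearMap.range (Matrix.toLin' A)) := by
    rw [Matrix.toLin'_apply']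
    rfl
  rw [h4, ← h3, Matrix.trace_toLin'_eq]
  rfl

theorem XL_smul {m n : Type} [Fintype m] [Fintype n] (c : ℂ) (hc : c ≠ 0) (A : Matrix m n ℂ) :
    (c • A).rank = A.rank := by
  unfold Matrix.rank
  have e : (c • A).mulVecLin = c • A.mulVecLin := by
    ext x
    simp [Matrix.smul_mulVec]
  rw [e, LinearMap.range_smul _ _ hc]

open scoped ComplexOrder in
theorem XL_rk {m n : Type} [Fintype m] [Fintype n] (A : Matrix m n ℂ) : (A * A.conjTranspose).rank = A.rank :=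
  Matrix.rank_self_mul_conjTranspose A

theorem XL (hQEI : QEI_stmt) (hBCL : BCL_stmt) (hSTC : STC_stmt) (hB2 : B2_stmt) : XL_stmt := by
  classical
  intro p M hM G _ _ χ H
  have hBC := hBCL G M χ H
  obtain ⟨q1, -, -, -⟩ := hQEI p M hM G H (Blk M χ H) hBC
  have hfin : (Blk M χ H).Finite := (hB2 G H).1.subset hBC.sub
  haveI : Fintype (Blk M χ H) := hfin.fintype
  haveI : Fintype {v : G // v ∈ H ∧ ¬ p ∣ orderOf v} := Fintype.ofFinite _
  have hsum : ∀ f : (G → ℂ) → ℂ, ∑ᶠ ψ ∈ Blk M χ H, f ψ = ∑ ψ : Blk M χ H, f ψ := fun f => by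
    rw [← finsum_set_coe_eq_finsum_mem, finsum_eq_sum_of_fintype]
  let B : Matrix (Blk M χ H) {v : G // v ∈ H ∧ ¬ p ∣ orderOf v} ℂ := Matrix.of fun ψ v => ψ.1 v.1
  let E : Matrix (Blk M χ H) (Blk M χ H) ℂ := Matrix.of fun ψ ψ' => EE p H ψ.1 ψ'.1
  have hE : E * E = E := by
    ext ψ ψ''
    have h2 := q1 ψ.1 ψ.2 ψ''.1 ψ''.2
    rw [hsum] at h2
    exact h2
  have hH : (Nat.card H : ℂ) ≠ 0 := by
    exact_mod_cast Nat.card_pos.ne'
  have hEB : E = (Nat.card H : ℂ)⁻¹ • (B * B.conjTranspose) := by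
    ext ψ ψ'
    show EE p H ψ.1 ψ'.1 = (Nat.card H : ℂ)⁻¹ * ∑ v : {v : G // v ∈ H ∧ ¬ p ∣ orderOf v}, ψ.1 v.1 * (starRingEnd ℂ) (ψ'.1 v.1)
    unfold EE
    rw [div_eq_inv_mul]
    congr 1
    have h5 : ∑ᶠ v ∈ {v : G | v ∈ H ∧ PReg p v}, ψ.1 v * ψ'.1 v⁻¹ =
        ∑ v : {v : G // v ∈ H ∧ ¬ p ∣ orderOf v}, ψ.1 v.1 * ψ'.1 v.1⁻¹ := by
      rw [← finsum_set_coe_eq_finsum_mem]
      exact finsum_eq_sum_of_fintype (α := {v : G // v ∈ H ∧ ¬ p ∣ orderOf v}) _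
    rw [h5]
    refine Finset.sum_congr rfl fun v _ => ?_
    rw [hSTC G H ψ'.1 (hBC.sub ψ'.2)]
  have hr : E.rank = Pool.Agent.FIW.brauerNumber p M χ H := by
    have hset : Set.range B.row = (fun (ψ : G → ℂ) (v : {v : G // v ∈ H ∧ ¬ p ∣ orderOf v}) => ψ v) ''
        {ψ : G → ℂ | ψ ∈ IrrOn H ∧ Induces M ψ χ} := by
      ext f
      constructor
      · rintro ⟨ψ, rfl⟩
        exact ⟨ψ.1, ψ.2, rfl⟩
      · rintro ⟨ψ, hψ, rfl⟩
        exact ⟨⟨ψ, hψ⟩, rfl⟩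
    rw [hEB, XL_smul _ (inv_ne_zero hH), XL_rk, Matrix.rank_eq_finrank_span_row, hset]
    rfl
  have h6 := XL_rank E hE
  rw [hr] at h6
  unfold LL
  rw [hsum]
  exact h6

end Pool.Agent.FI4
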