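import Pool.Agent.helper1.FI4.SpecHT

/-!
# Row fi4:GAV: averaging
-/

set_option autoImplicit false

namespace Pool.Agent.FI4

theorem GAV_root {G : Type} [Group G] (u : G) (s n : ℕ) (hu : u ^ n = 1) (hs : s.Coprime n) :
    (u ^ s) ^ (Nat.gcdA s n) = u := by
  have h1 : ((s : ℤ) * Nat.gcdA s n + (n : ℤ) * Nat.gcdB s n) = 1 := by
    rw [← Nat.gcd_eq_gcd_ab]
    rw [hs]
    rfl
  calc (u ^ s) ^ (Nat.gcdA s n) = u ^ ((s : ℤ) * Nat.gcdA s n) := by rw [zpow_mul, zpow_natCast]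
    _ = u ^ ((s : ℤ) * Nat.gcdA s n) * u ^ ((n : ℤ) * Nat.gcdB s n) := by
        rw [zpow_mul u n, zpow_natCast, hu, one_zpow, mul_one]
    _ = u := by rw [← zpow_add, h1, zpow_one]

theorem GAV_sum {G : Type} [Group G] (R : Finset G) (n : ℕ) (hone : ∀ u ∈ R, u ^ n = 1)
    (hR : ∀ u ∈ R, ∀ s : ℕ, s.Coprime n → u ^ s ∈ R) (f : G → ℝ) (s : ℕ) (hs : s.Coprime n) :
    ∑ u ∈ R, f (u ^ s) = ∑ u ∈ R, f u := by
  classical
  have hinj : Set.InjOn (fun u : G => u ^ s) (R : Set G) := by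
    intro u hu v hv huv
    have huv' : u ^ s = v ^ s := huv
    rw [← GAV_root u s n (hone u hu) hs, ← GAV_root v s n (hone v hv) hs, huv']
  have himg : R.image (fun u => u ^ s) = R := by
    refine Finset.eq_of_subset_of_card_le (fun x hx => ?_) (Finset.card_image_of_injOn hinj).ge
    obtain ⟨u, hu, rfl⟩ := Finset.mem_image.1 hx
    exact hR u hu s hs
  calc ∑ u ∈ R, f (u ^ s) = ∑ x ∈ R.image (fun u => u ^ s), f x := (Finset.sum_image hinj).symm
    _ = ∑ u ∈ R, f u := by rw [himg]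

theorem GAV : GAV_stmt := by
  intro G _ R n hn hone hR f c hc
  have htot : 0 < Nat.totient n := Nat.totient_pos.2 hn
  have hcard : ((Finset.range n).filter (fun s => s.Coprime n)).card = Nat.totient n := by
    rw [Nat.totient_eq_card_coprime]
    congr 1
    ext s
    simp only [Finset.mem_filter, Nat.coprime_comm]
  have h1 : ∑ u ∈ R, c * (Nat.totient n : ℝ) ≤
      ∑ u ∈ R, ∑ s ∈ (Finset.range n).filter (fun s => s.Coprime n), f (u ^ s) := Finset.sum_le_sum hc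
  rw [Finset.sum_comm] at h1
  have h2 : ∑ s ∈ (Finset.range n).filter (fun s => s.Coprime n), ∑ u ∈ R, f (u ^ s) =
      (Nat.totient n : ℝ) * ∑ u ∈ R, f u := by
    rw [Finset.sum_congr rfl (fun s hs => GAV_sum R n hone hR f s (Finset.mem_filter.1 hs).2),
      Finset.sum_const, hcard, nsmul_eq_mul]
  rw [h2, Finset.sum_const, nsmul_eq_mul] at h1
  have h3 : (Nat.totient n : ℝ) * (c * R.card) ≤ (Nat.totient n : ℝ) * ∑ u ∈ R, f u := by
    calc (Nat.totient n : ℝ) * (c * R.card) = (R.card : ℝ) * (c * (Nat.totient n : ℝ)) := by ring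
      _ ≤ _ := h1
  exact le_of_mul_le_mul_left h3 (by exact_mod_cast htot)

end Pool.Agent.FI4
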